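import Pool.Agent.Helper71.PY.Goals

/-!
# The socle element (packet SOC of MP_293fae_al)
-/

set_option autoImplicit false

namespace Pool.Agent.Helper7.PY

open Pool.Agent.Helper71.PY

theorem exists_socle {R : Type} [CommRing R] [IsLocalRing R] {C : Type} [AddCommGroup C]
    [Module R C] (h1 : Module.length R C ≠ ⊤) (h2 : Module.length R C ≠ 0) :
    ∃ c : C, c ≠ 0 ∧ ∀ r ∈ IsLocalRing.maximalIdeal R, r • c = 0 := by
  have hfl : IsFiniteLength R C := Module.length_ne_top_iff.mp h1
  obtain ⟨hN, hA⟩ := isFiniteLength_iff_isNoetherian_isArtinian.mp hfl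
  have hnt : Nontrivial C := by
    rcases subsingleton_or_nontrivial C with h | h
    · exact absurd (Module.length_eq_zero_iff.mpr h) h2
    · exact h
  obtain ⟨S, hS⟩ : ∃ S : Submodule R C, IsAtom S := by
    rcases IsAtomic.eq_bot_or_exists_atom_le (⊤ : Submodule R C) with h | ⟨S, hS, -⟩
    · exact absurd h top_ne_bot
    · exact ⟨S, hS⟩
  have hsimple : IsSimpleModule R S := isSimpleModule_iff_isAtom.mpr hS
  have hmax : (Module.annihilator R S).IsMaximal := IsSimpleModule.annihilator_isMaximal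
  have heq : Module.annihilator R S = IsLocalRing.maximalIdeal R :=
    IsLocalRing.eq_maximalIdeal hmax
  obtain ⟨c, hc, hc0⟩ := S.ne_bot_iff.mp hS.1
  refine ⟨c, hc0, fun r hr => ?_⟩
  rw [← heq, Module.mem_annihilator] at hr
  have := hr ⟨c, hc⟩
  have h3 := congrArg (fun t : S => (t : C)) this
  simpa using h3

theorem soc : G_SOC := by
  intro R _ _ _ _ x y hR N _ _ B P h1 h2
  obtain ⟨c, hc0, hc⟩ := exists_socle h1 h2
  obtain ⟨z, rfl⟩ := Submodule.Quotient.mk_surjective _ c
  have hx : x ∈ IsLocalRing.maximalIdeal R := by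
    rw [hR.max]; exact Ideal.subset_span (by simp)
  have hy : y ∈ IsLocalRing.maximalIdeal R := by
    rw [hR.max]; exact Ideal.subset_span (by simp)
  have hz : z ∉ LinearMap.range (nu B P) := by
    intro h
    exact hc0 ((Submodule.Quotient.mk_eq_zero _).mpr h)
  have hxz : x • z ∈ LinearMap.range (nu B P) := by
    rw [← Submodule.Quotient.mk_eq_zero, Submodule.Quotient.mk_smul]
    exact hc x hx
  have hyz : y • z ∈ LinearMap.range (nu B P) := by
    rw [← Submodule.Quotient.mk_eq_zero, Submodule.Quotient.mk_smul]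
    exact hc y hy
  obtain ⟨nx, hnx⟩ := hxz
  obtain ⟨ny, hny⟩ := hyz
  refine ⟨z, nx, ny, hz, fun p => ?_, fun p => ?_⟩
  · have := congrArg (fun t : P →ₗ[R] R => t p) hnx
    simpa using this
  · have := congrArg (fun t : P →ₗ[R] R => t p) hny
    simpa using this

end Pool.Agent.Helper7.PY
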